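import Pool.Agent.Helper32_NJ.Stmts

/-!
# DMA: core of the descent for the recipe `K₋₁`
-/

set_option autoImplicit false

namespace Pool.Agent.NJ.H46

open ZMod

/-- the symbol depends on the class only -/
lemma leg_congr (p : ℕ) [Fact p.Prime] {a b : ℤ} (h : (p : ℤ) ∣ b - a) :
    legendreSym p a = legendreSym p b := by
  rw [legendreSym.mod p a, legendreSym.mod p b, (Int.modEq_iff_dvd.2 h : a ≡ b [ZMOD p])]

lemma ne0_of (p : ℕ) [Fact p.Prime] {a : ℤ} (h : ¬ (p : ℤ) ∣ a) : (a : ZMod p) ≠ 0 := by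
  rwa [Ne, ZMod.intCast_zmod_eq_zero_iff_dvd]

lemma leg_sq (p : ℕ) [Fact p.Prime] {a : ℤ} (h : ¬ (p : ℤ) ∣ a) :
    legendreSym p a * legendreSym p a = 1 := by
  have := legendreSym.sq_one p (ne0_of p h)
  rwa [sq] at this

lemma prime_not_dvd {p q : ℕ} (hp : p.Prime) (hq : q.Prime) (h : p ≠ q) : ¬ (p : ℤ) ∣ (q : ℤ) := by
  rw [Int.natCast_dvd_natCast, Nat.prime_dvd_prime_iff_eq hp hq]
  exact h

/-- arithmetic of the recipe `L` -/
lemma recL_facts {p₁ p₂ p₃ : ℕ} (h : RecL p₁ p₂ p₃) :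
    p₂ % 8 = 3 ∧ p₂ ≠ p₁ ∧ p₂ ≠ p₃ ∧ p₁ ≠ 2 ∧ p₂ ≠ 2 ∧ p₃ ≠ 2 := by
  obtain ⟨h1, h2, h3, m1, m3, he, hne⟩ := h
  have := h1.pos
  have := h3.pos
  refine ⟨?_, ?_, ?_, ?_, ?_, ?_⟩ <;> omega

theorem dma (sup : SUPStmt) (st0 : ST0Stmt) (st2 : ST2Stmt) (st3 : ST3Stmt) (_st5 : ST5Stmt)
    (st6 : ST6Stmt) (tw3 : TW3Stmt) (rea : REAStmt) (sqf : SQFStmt) : DMAStmt := by
  intro p₁ p₂ p₃ hR d₁ d₂ hC hn1 hn2
  obtain ⟨m2, n21, n23, o1, o2, o3⟩ := recL_facts hR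
  obtain ⟨P1, P2, P3, m1, m3, he, hne⟩ := hR
  obtain ⟨r, s, w, A, B, hP⟩ := hC
  have F1 : Fact p₁.Prime := ⟨P1⟩
  have F2 : Fact p₂.Prime := ⟨P2⟩
  have F3 : Fact p₃.Prime := ⟨P3⟩
  have q1 : (0 : ℤ) < p₁ := by exact_mod_cast P1.pos
  have q2 : (0 : ℤ) < p₂ := by exact_mod_cast P2.pos
  have q3 : (0 : ℤ) < p₃ := by exact_mod_cast P3.pos
  have he' : (p₂ : ℤ) = 2 * p₁ + p₃ := by exact_mod_cast he
  have I1 : Prime (p₁ : ℤ) := Nat.prime_iff_prime_int.1 P1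
  have I2 : Prime (p₂ : ℤ) := Nat.prime_iff_prime_int.1 P2
  have I3 : Prime (p₃ : ℤ) := Nat.prime_iff_prime_int.1 P3
  have n12 : ¬ (p₁ : ℤ) ∣ p₂ := prime_not_dvd P1 P2 (Ne.symm n21)
  have n13 : ¬ (p₁ : ℤ) ∣ p₃ := prime_not_dvd P1 P3 hne
  have k21 : ¬ (p₂ : ℤ) ∣ p₁ := prime_not_dvd P2 P1 n21
  have k23 : ¬ (p₂ : ℤ) ∣ p₃ := prime_not_dvd P2 P3 n23
  have k31 : ¬ (p₃ : ℤ) ∣ p₁ := prime_not_dvd P3 P1 (Ne.symm hne)
  have k32 : ¬ (p₃ : ℤ) ∣ p₂ := prime_not_dvd P3 P2 (Ne.symm n23)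
  have t1 : ¬ (p₁ : ℤ) ∣ 2 := prime_not_dvd P1 Nat.prime_two o1
  have t2 : ¬ (p₂ : ℤ) ∣ 2 := prime_not_dvd P2 Nat.prime_two o2
  have t3 : ¬ (p₃ : ℤ) ∣ 2 := prime_not_dvd P3 Nat.prime_two o3
  -- the symbols
  have a2 : legendreSym p₁ 2 = -1 := by
    rw [legendreSym.at_two o1, ZMod.χ₈_nat_eq_if_mod_eight, if_neg (by omega), if_neg (by omega)]
  have am : legendreSym p₁ (-1) = -1 := by
    rw [legendreSym.at_neg_one o1, ZMod.χ₄_nat_three_mod_four (by omega)]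
  have a23 : legendreSym p₁ p₂ = legendreSym p₁ p₃ :=
    leg_congr p₁ ⟨-2, by rw [he']; ring⟩
  have c2 : legendreSym p₃ 2 = -1 := by
    rw [legendreSym.at_two o3, ZMod.χ₈_nat_eq_if_mod_eight, if_neg (by omega), if_neg (by omega)]
  have c1 : legendreSym p₃ p₁ = legendreSym p₁ p₃ :=
    (legendreSym.quadratic_reciprocity_one_mod_four (p := p₃) (q := p₁) (by omega) o1).symm
  have c3 : legendreSym p₃ p₂ = - legendreSym p₁ p₃ := by
    have : legendreSym p₃ p₂ = legendreSym p₃ (2 * p₁) :=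
      leg_congr p₃ ⟨-1, by rw [he']; ring⟩
    rw [this, legendreSym.mul, c2, c1]; ring
  have bm : legendreSym p₂ (-1) = -1 := by
    rw [legendreSym.at_neg_one o2, ZMod.χ₄_nat_three_mod_four (by omega)]
  have b3 : legendreSym p₂ p₃ = - legendreSym p₂ (2 * p₁) := by
    have : legendreSym p₂ p₃ = legendreSym p₂ (-1 * (2 * p₁)) :=
      leg_congr p₂ ⟨-1, by rw [he']; ring⟩
    rw [this, legendreSym.mul, bm]; ring
  have g2 : legendreSym p₁ p₃ * legendreSym p₁ p₃ = 1 := leg_sq p₁ n13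
  have b2 : legendreSym p₂ (2 * p₁) ≠ 0 := by
    rw [Ne, legendreSym.eq_zero_iff]
    exact ne0_of p₂ (fun h => (I2.dvd_mul.1 h).elim t2 k21)
  generalize hg : legendreSym p₁ p₃ = g at *
  have hg1 : g = 1 ∨ g = -1 := by
    rcases Int.mul_eq_one_iff_eq_one_or_neg_one.1 g2 with h | h
    · exact Or.inl h.1
    · exact Or.inr h.1
  -- the curve
  have hdiff : (-4 * (p₁ : ℤ) ^ 2 * p₂ * p₃) - (2 * p₁ * p₂ * (p₃ : ℤ) ^ 2) =
      (p₂ : ℤ) ^ 2 * (-2 * p₁ * p₃) := by rw [he']; ring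
  have hpos2 : 0 < d₂ := (rea _ _ _ _ _ _ _ _ _ hP).2 (by
      have : 0 < 4 * (p₁ : ℤ) ^ 2 * p₂ * p₃ := by positivity
      linarith) (by positivity)
  have s0 := st0 _ _ _ _ _ _ _ _ _ hP p₁ o1 ⟨-4 * p₁ * p₂ * p₃, by ring⟩
    ⟨2 * p₂ * p₃ ^ 2, by ring⟩ (Or.inr (by
      rintro ⟨c, hc⟩
      have h1 : (p₁ : ℤ) * (2 * p₂ * p₃ ^ 2) = p₁ * (p₁ * c) := by linarith [hc]
      have h2 := mul_left_cancel₀ q1.ne' h1
      have h3 : (p₁ : ℤ) ∣ 2 * p₂ * p₃ ^ 2 := ⟨c, h2⟩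
      rcases I1.dvd_mul.1 h3 with h | h
      · exact (I1.dvd_mul.1 h).elim t1 n12
      · exact n13 (I1.dvd_of_dvd_pow h))) hn1 hn2
  obtain ⟨l1, l2⟩ := s0
  -- supports
  have supp1 : ∀ p : ℕ, p.Prime → (p : ℤ) ∣ d₁ → p = 2 ∨ p = p₂ ∨ p = p₃ := by
    intro p pp hd
    have Ip : Prime (p : ℤ) := Nat.prime_iff_prime_int.1 pp
    have hx : (p : ℤ) ∣ (2 * p₁ * p₂ * p₃) ^ 2 := by
      rcases (sup _ _ _ _ _ _ _ _ _ hP p pp).1 hd with h | h
      · exact h.trans ⟨-p₂ * p₃, by ring⟩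
      · exact h.trans ⟨2 * p₁ * p₂, by ring⟩
    have hy := Ip.dvd_of_dvd_pow hx
    rcases Ip.dvd_mul.1 hy with hy | hy
    · rcases Ip.dvd_mul.1 hy with hy | hy
      · rcases Ip.dvd_mul.1 hy with hy | hy
        · left
          exact (Nat.prime_dvd_prime_iff_eq pp Nat.prime_two).1 (by exact_mod_cast hy)
        · exfalso
          have : p = p₁ := (Nat.prime_dvd_prime_iff_eq pp P1).1 (by exact_mod_cast hy)
          exact hn1 (this ▸ hd)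
      · right; left
        exact (Nat.prime_dvd_prime_iff_eq pp P2).1 (by exact_mod_cast hy)
    · right; right
      exact (Nat.prime_dvd_prime_iff_eq pp P3).1 (by exact_mod_cast hy)
  have supp2 : ∀ p : ℕ, p.Prime → (p : ℤ) ∣ d₂ → p = 2 ∨ p = p₂ ∨ p = p₃ := by
    intro p pp hd
    have Ip : Prime (p : ℤ) := Nat.prime_iff_prime_int.1 pp
    have hx : (p : ℤ) ∣ (2 * p₁ * p₂ * p₃) ^ 2 := by
      rcases (sup _ _ _ _ _ _ _ _ _ hP p pp).2.1 hd with h | h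
      · exact h.trans ⟨-p₂ * p₃, by ring⟩
      · rw [hdiff] at h
        exact h.trans ⟨-2 * p₁ * p₃, by ring⟩
    have hy := Ip.dvd_of_dvd_pow hx
    rcases Ip.dvd_mul.1 hy with hy | hy
    · rcases Ip.dvd_mul.1 hy with hy | hy
      · rcases Ip.dvd_mul.1 hy with hy | hy
        · left
          exact (Nat.prime_dvd_prime_iff_eq pp Nat.prime_two).1 (by exact_mod_cast hy)
        · exfalso
          have : p = p₁ := (Nat.prime_dvd_prime_iff_eq pp P1).1 (by exact_mod_cast hy)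
          exact hn2 (this ▸ hd)
      · right; left
        exact (Nat.prime_dvd_prime_iff_eq pp P2).1 (by exact_mod_cast hy)
    · right; right
      exact (Nat.prime_dvd_prime_iff_eq pp P3).1 (by exact_mod_cast hy)
  obtain ⟨ε₁, hε₁, L1⟩ := (sqf d₁ p₂ p₃ hP.sq1 P2 P3 o2 o3 n23).2 supp1
  obtain ⟨ε₂, hε₂, L2⟩ := (sqf d₂ p₂ p₃ hP.sq2 P2 P3 o2 o3 n23).2 supp2
  have q23 : (0 : ℤ) < p₂ * p₃ := by positivity
  have he2 : ε₂ = 1 := by
    rcases hε₂ with h | h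
    · exact h
    · exfalso
      subst h
      rcases L2 with h | h | h | h | h | h | h | h <;> rw [h] at hpos2 <;> nlinarith
  subst he2
  simp only [one_mul] at L2
  -- the prime p₃
  have hf3 : (-4 * (p₁ : ℤ) ^ 2 * p₂ * p₃) = p₃ * (-4 * (p₁ : ℤ) ^ 2 * p₂) := by ring
  have nf3 : ¬ (p₃ : ℤ) ∣ (-4 * (p₁ : ℤ) ^ 2 * p₂) := by
    intro h
    have h' : (p₃ : ℤ) ∣ 2 ^ 2 * (p₁ : ℤ) ^ 2 * p₂ := by
      have := (dvd_neg (a := (p₃ : ℤ))).2 h
      exact this.trans ⟨1, by ring⟩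
    rcases I3.dvd_mul.1 h' with h | h
    · rcases I3.dvd_mul.1 h with h | h
      · exact t3 (I3.dvd_of_dvd_pow h)
      · exact k31 (I3.dvd_of_dvd_pow h)
    · exact k32 h
  have S2 : ¬ (p₃ : ℤ) ∣ d₂ → legendreSym p₃ d₂ = 1 := fun h =>
    st2 _ _ _ _ _ _ _ _ _ hP p₃ o3 ⟨_, hf3⟩ (by
      rw [hf3, sq]
      rintro ⟨c, hc⟩
      exact nf3 ⟨c, mul_left_cancel₀ q3.ne' (by rw [hc]; ring)⟩) ⟨2 * p₁ * p₂, by ring⟩ h
  have S3 : ∀ g₂ : ℤ, d₂ = p₃ * g₂ → legendreSym p₃ g₂ = -g := fun g₂ h => by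
    rw [st3 _ _ _ _ _ _ _ _ _ hP p₃ (-4 * (p₁ : ℤ) ^ 2 * p₂) g₂ o3 hf3 nf3
      ⟨2 * p₁ * p₂, by ring⟩ h]
    have : -(-4 * (p₁ : ℤ) ^ 2 * p₂) = (2 * p₁) * (2 * p₁) * p₂ := by ring
    rw [this, legendreSym.mul, legendreSym.mul, c3,
      leg_sq p₃ (fun h => (I3.dvd_mul.1 h).elim t3 k31), one_mul]
  -- d₂ is 1 or p₂ p₃
  have D2 : d₂ = 1 ∨ d₂ = p₂ * p₃ := by
    rcases L2 with h | h | h | h | h | h | h | h
    · exact Or.inl h
    · rw [h, a2] at l2; norm_num at l2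
    · exfalso
      rw [h, a23] at l2
      have := S2 (by rw [h]; exact k32)
      rw [h, c3] at this
      omega
    · exfalso
      rw [h, legendreSym.mul, a2, a23] at l2
      have := S2 (by rw [h]; exact fun h => (I3.dvd_mul.1 h).elim t3 k32)
      rw [h, legendreSym.mul, c2, c3] at this
      omega
    · exfalso
      rw [h, hg] at l2
      have := S3 1 (by rw [h]; ring)
      rw [legendreSym.at_one] at this
      omega
    · exfalso
      rw [h, legendreSym.mul, a2, hg] at l2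
      have := S3 2 (by rw [h]; ring)
      rw [c2] at this
      omega
    · exact Or.inr h
    · exfalso
      rw [h, legendreSym.mul, legendreSym.mul, a2, a23, hg, g2] at l2
      norm_num at l2
  -- residues modulo 8, 16, 32
  have r1 : (p₁ : ℤ) % 8 = 3 := by omega
  have r2 : (p₂ : ℤ) % 8 = 3 := by omega
  have r3 : (p₃ : ℤ) % 8 = 5 := by omega
  obtain ⟨x, hx⟩ : ∃ x : ℤ, (p₁ : ℤ) = 8 * x + 3 := ⟨(p₁ : ℤ) / 8, by omega⟩
  obtain ⟨y, hy⟩ : ∃ y : ℤ, (p₂ : ℤ) = 8 * y + 3 := ⟨(p₂ : ℤ) / 8, by omega⟩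
  obtain ⟨z, hz⟩ : ∃ z : ℤ, (p₃ : ℤ) = 8 * z + 5 := ⟨(p₃ : ℤ) / 8, by omega⟩
  have r23 : ((p₂ : ℤ) * p₃) % 8 = 7 := by
    have : (p₂ : ℤ) * p₃ = 8 * (8 * y * z + 5 * y + 3 * z + 1) + 7 := by rw [hy, hz]; ring
    omega
  have T := tw3 _ _ _ _ _ _ _ _ _ hP (by
      have h1 : (p₁ : ℤ) ^ 2 = 8 * (8 * x ^ 2 + 6 * x + 1) + 1 := by rw [hx]; ring
      have h2 : (p₂ : ℤ) * p₃ = 8 * (8 * y * z + 5 * y + 3 * z + 1) + 7 := by rw [hy, hz]; ring
      generalize 8 * x ^ 2 + 6 * x + 1 = a at h1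
      generalize 8 * y * z + 5 * y + 3 * z + 1 = b at h2
      have h3 : -4 * (p₁ : ℤ) ^ 2 * p₂ * p₃ = -4 * ((p₁ : ℤ) ^ 2 * (p₂ * p₃)) := by ring
      have h4 : -4 * (p₁ : ℤ) ^ 2 * p₂ * p₃ = 4 + 32 * (-(8 * a * b + 7 * a + b + 1)) := by
        rw [h3, h1, h2]; ring
      omega) (by
      have h1 : (p₁ : ℤ) * p₂ = 8 * (8 * x * y + 3 * x + 3 * y + 1) + 1 := by rw [hx, hy]; ring
      have h2 : (p₃ : ℤ) ^ 2 = 8 * (8 * z ^ 2 + 10 * z + 3) + 1 := by rw [hz]; ring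
      generalize 8 * x * y + 3 * x + 3 * y + 1 = a at h1
      generalize 8 * z ^ 2 + 10 * z + 3 = b at h2
      have h4 : 2 * (p₁ : ℤ) * p₂ * p₃ ^ 2 = 2 + 16 * (8 * a * b + a + b) := by
        have h3 : 2 * (p₁ : ℤ) * p₂ * p₃ ^ 2 = 2 * ((p₁ * p₂) * p₃ ^ 2) := by ring
        rw [h3, h1, h2]; ring
      omega)
  rcases D2 with h2 | h2
  · refine ⟨?_, h2⟩
    have T1 := T.1 (by rw [h2]; rfl)
    rcases hε₁ with h | h <;> subst h
    · simp only [one_mul] at L1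
      rcases L1 with h | h | h | h | h | h | h | h
      · exact h
      all_goals (exfalso; rw [h] at T1; omega)
    · rcases L1 with h | h | h | h | h | h | h | h
      · exfalso; rw [h] at T1; omega
      · exfalso; rw [h] at T1; omega
      · exfalso; rw [h] at T1; omega
      · exfalso; rw [h] at T1; omega
      · exfalso; rw [h] at T1; omega
      · exfalso; rw [h] at T1; omega
      · exfalso
        rw [h, legendreSym.mul, legendreSym.mul, am, a23, hg, g2] at l1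
        norm_num at l1
      · exfalso; rw [h] at T1; omega
  · exfalso
    by_cases hp : (p₂ : ℤ) ∣ d₁
    · obtain ⟨g₁, hg₁⟩ := hp
      have hf2 : (-4 * (p₁ : ℤ) ^ 2 * p₂ * p₃) = p₂ * (-4 * (p₁ : ℤ) ^ 2 * p₃) := by ring
      have nf2 : ¬ (p₂ : ℤ) ∣ (-4 * (p₁ : ℤ) ^ 2 * p₃) := by
        intro h
        have h' : (p₂ : ℤ) ∣ 2 ^ 2 * (p₁ : ℤ) ^ 2 * p₃ := by
          have := (dvd_neg (a := (p₂ : ℤ))).2 h
          exact this.trans ⟨1, by ring⟩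
        rcases I2.dvd_mul.1 h' with h | h
        · rcases I2.dvd_mul.1 h with h | h
          · exact t2 (I2.dvd_of_dvd_pow h)
          · exact k21 (I2.dvd_of_dvd_pow h)
        · exact k23 h
      have nh2 : ¬ (p₂ : ℤ) ∣ (-2 * p₁ * p₃ : ℤ) := by
        intro h
        have h' : (p₂ : ℤ) ∣ 2 * (p₁ : ℤ) * p₃ := by
          have := (dvd_neg (a := (p₂ : ℤ))).2 h
          exact this.trans ⟨1, by ring⟩
        rcases I2.dvd_mul.1 h' with h | h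
        · exact (I2.dvd_mul.1 h).elim t2 k21
        · exact k23 h
      have key := st6 _ _ _ _ _ _ _ _ _ hP p₂ _ (-2 * p₁ * p₃) g₁ p₃ o2 hf2 nf2 hdiff nh2 hg₁ h2
      have : (-4 * (p₁ : ℤ) ^ 2 * p₃) * (-2 * p₁ * p₃) = (2 * p₁ * p₃) * (2 * p₁ * p₃) * (2 * p₁) := by
        ring
      rw [this, legendreSym.mul, legendreSym.mul, leg_sq p₂ (fun h => (I2.dvd_mul.1 h).elim
        (fun h => (I2.dvd_mul.1 h).elim t2 k21) k23), one_mul, b3] at key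
      omega
    · have T2 := T.2 (by rw [h2]; exact r23)
      have e23 : (p₂ : ℤ) ∣ p₂ * p₃ := ⟨_, rfl⟩
      rcases hε₁ with h | h <;> subst h
      · simp only [one_mul] at L1
        rcases L1 with h | h | h | h | h | h | h | h
        · rw [h] at T2; omega
        · rw [h, a2] at l1; norm_num at l1
        · exact hp (by rw [h])
        · exact hp (by rw [h]; exact ⟨2, by ring⟩)
        · rw [h] at T2; omega
        · rw [h] at T2; omega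
        · exact hp (by rw [h]; exact e23)
        · exact hp (by rw [h]; exact ⟨2 * p₃, by ring⟩)
      · rcases L1 with h | h | h | h | h | h | h | h
        · rw [h] at T2; omega
        · rw [h] at T2; omega
        · exact hp (by rw [h]; exact ⟨-1, by ring⟩)
        · exact hp (by rw [h]; exact ⟨-2, by ring⟩)
        · rw [h] at T2; omega
        · rw [h] at T2; omega
        · exact hp (by rw [h]; exact ⟨-p₃, by ring⟩)
        · exact hp (by rw [h]; exact ⟨-2 * p₃, by ring⟩)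

end Pool.Agent.NJ.H46
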