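import Pool.Agent.Helper32_NJ.Stmts

/-!
# EXK: existence of the primes of the recipe `K`
-/

set_option autoImplicit false

namespace Pool.Agent.NJ.H46X

open ZMod NumberTheorySymbols

lemma crt {m n : ℤ} (h : IsCoprime m n) (a b : ℤ) : ∃ x : ℤ, m ∣ x - a ∧ n ∣ x - b := by
  obtain ⟨r, s, hrs⟩ := h
  refine ⟨a * (s * n) + b * (r * m), ⟨(b - a) * r, ?_⟩, ⟨(a - b) * s, ?_⟩⟩
  · have : s * n = 1 - r * m := by linarith
    rw [this]; ring
  · have : r * m = 1 - s * n := by linarith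
    rw [this]; ring

lemma leg_congr (p : ℕ) [Fact p.Prime] {a b : ℤ} (h : (p : ℤ) ∣ b - a) :
    legendreSym p a = legendreSym p b := by
  rw [legendreSym.mod p a, legendreSym.mod p b, (Int.modEq_iff_dvd.2 h : a ≡ b [ZMOD p])]

lemma exists_nonres (l : ℕ) [Fact l.Prime] (h : l ≠ 2) : ∃ n : ℤ, legendreSym l n = -1 := by
  obtain ⟨a, ha⟩ := FiniteField.exists_nonsquare (F := ZMod l)
    ((ZMod.ringChar_zmod_n l).substr h)
  obtain ⟨n, rfl⟩ := ZMod.intCast_surjective a
  exact ⟨n, legendreSym.eq_neg_one_iff l |>.2 ha⟩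

/-- an integer which is a nonresidue modulo all primes of a finite set -/
lemma exists_nonres_all (S : Finset ℕ) (hS : ∀ l ∈ S, l.Prime ∧ l ≠ 2) :
    ∃ n : ℤ, ∀ (l : ℕ) [Fact l.Prime], l ∈ S → legendreSym l n = -1 := by
  classical
  induction S using Finset.induction_on with
  | empty => exact ⟨0, fun l _ h => absurd h (Finset.notMem_empty l)⟩
  | insert q S hq ih =>
    obtain ⟨n, hn⟩ := ih (fun l hl => hS l (Finset.mem_insert_of_mem hl))
    have hqq := hS q (Finset.mem_insert_self q S)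
    have : Fact q.Prime := ⟨hqq.1⟩
    obtain ⟨m, hm⟩ := exists_nonres q hqq.2
    have hc : IsCoprime (q : ℤ) ((∏ l ∈ S, l : ℕ) : ℤ) := by
      rw [Nat.isCoprime_iff_coprime]
      refine Nat.Coprime.prod_right (fun l hl => ?_)
      rw [Nat.coprime_primes hqq.1 (hS l (Finset.mem_insert_of_mem hl)).1]
      rintro rfl
      exact hq hl
    obtain ⟨x, hx1, hx2⟩ := crt hc m n
    refine ⟨x, fun l _ hl => ?_⟩
    rcases Finset.mem_insert.1 hl with h | h
    · subst h
      rw [← hm]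
      exact (leg_congr l hx1).symm
    · rw [← hn l h]
      refine (leg_congr l ?_).symm
      refine dvd_trans ?_ hx2
      exact_mod_cast Finset.dvd_prod_of_mem (fun l => l) h

/-- decomposition of a squarefree integer -/
lemma decomp (k : ℤ) (hk : Squarefree k) : ∃ (σ : ℤ) (K : ℕ), k = σ * K ∧ Odd K ∧
    Squarefree K ∧ (σ = 1 ∨ σ = -1 ∨ σ = 2 ∨ σ = -2) := by
  have hsq : Squarefree k.natAbs := Int.squarefree_natAbs.2 hk
  rcases Nat.even_or_odd k.natAbs with he | ho
  · obtain ⟨c, hc⟩ := he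
    have hc2 : k.natAbs = 2 * c := by omega
    have hcs : Squarefree c := hsq.squarefree_of_dvd ⟨2, by omega⟩
    have hco : Odd c := by
      rw [← Nat.not_even_iff_odd]
      rintro ⟨e, he⟩
      have := hsq 2 ⟨e, by omega⟩
      norm_num at this
    rcases Int.natAbs_eq k with h | h
    · exact ⟨2, c, by rw [h, hc2]; push_cast; ring, hco, hcs, by tauto⟩
    · exact ⟨-2, c, by rw [h, hc2]; push_cast; ring, hco, hcs, by tauto⟩
  · rcases Int.natAbs_eq k with h | h
    · exact ⟨1, k.natAbs, by rw [one_mul]; exact h, ho, hsq, by tauto⟩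
    · exact ⟨-1, k.natAbs, by rw [neg_one_mul]; exact h, ho, hsq, by tauto⟩

/-- a class with prescribed Jacobi symbol -/
lemma exists_class (K : ℕ) (ho : Odd K) (hs : Squarefree K) (δ : ℤ) (hδ : δ = 1 ∨ (δ = -1 ∧ K ≠ 1)) :
    ∃ u : ℤ, J(u | K) = δ := by
  rcases hδ with rfl | ⟨rfl, hK⟩
  · exact ⟨1, jacobiSym.one_left K⟩
  · obtain ⟨l, hl, m, hm⟩ := Nat.exists_prime_and_dvd hK
    have : Fact l.Prime := ⟨hl⟩
    have hl2 : l ≠ 2 := by
      rintro rfl
      rw [hm] at ho
      exact (Nat.not_even_iff_odd.2 ho) ⟨m, by ring⟩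
    have hm0 : m ≠ 0 := by
      rintro rfl
      rw [mul_zero] at hm
      subst hm
      simp at ho
    have hcop : Nat.Coprime l m := by
      rw [hm] at hs
      exact (Nat.squarefree_mul_iff.1 hs).1
    obtain ⟨n, hn⟩ := exists_nonres l hl2
    obtain ⟨x, hx1, hx2⟩ := crt (Nat.isCoprime_iff_coprime.2 hcop) n 1
    refine ⟨x, ?_⟩
    have : NeZero m := ⟨hm0⟩
    have : NeZero l := ⟨hl.ne_zero⟩
    rw [hm, jacobiSym.mul_right, ← jacobiSym.legendreSym.to_jacobiSym, ← leg_congr l hx1, hn]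
    have : J(x | m) = J(1 | m) := jacobiSym.mod_left' (Int.modEq_iff_dvd.2 (by
      rw [← dvd_neg]
      simpa using hx2))
    rw [this, jacobiSym.one_left]
    norm_num

theorem exk (an : ANStmt) : EXKStmt := by
  intro k hk hk1 hkm N
  obtain ⟨σ, K, hkK, ho, hs, hσ⟩ := decomp k hk
  have hK0 : K ≠ 0 := by
    rintro rfl
    simp at ho
  have hKpos : 0 < K := Nat.pos_of_ne_zero hK0
  have hk0 : k ≠ 0 := hk.ne_zero
  -- the class of p₁ modulo K
  obtain ⟨δ, hδ, hδσ⟩ : ∃ δ : ℤ, (δ = 1 ∨ (δ = -1 ∧ K ≠ 1)) ∧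
      (((σ = 1 ∨ σ = -1) ∧ δ = -1) ∨ ((σ = 2 ∨ σ = -2) ∧ δ = 1)) := by
    rcases hσ with h | h | h | h
    · refine ⟨-1, Or.inr ⟨rfl, ?_⟩, by tauto⟩
      rintro rfl
      exact hk1 (by rw [hkK, h]; norm_num)
    · refine ⟨-1, Or.inr ⟨rfl, ?_⟩, by tauto⟩
      rintro rfl
      exact hkm (by rw [hkK, h]; norm_num)
    · exact ⟨1, Or.inl rfl, by tauto⟩
    · exact ⟨1, Or.inl rfl, by tauto⟩
  obtain ⟨uK, huK⟩ := exists_class K ho hs δ hδ
  have c8K : IsCoprime (8 : ℤ) (K : ℤ) := by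
    have : Nat.Coprime 8 K := by
      rw [show (8 : ℕ) = 2 ^ 3 by norm_num]
      exact Nat.Coprime.pow_left 3 (Nat.coprime_two_left.2 ho)
    exact_mod_cast Nat.isCoprime_iff_coprime.2 this
  obtain ⟨u, hu8, huK'⟩ := crt c8K 5 uK
  -- nonresidues
  obtain ⟨n, hn⟩ := exists_nonres_all K.primeFactors (fun l hl => ⟨Nat.prime_of_mem_primeFactors hl,
    by
      rintro rfl
      have := Nat.dvd_of_mem_primeFactors hl
      exact (Nat.not_even_iff_odd.2 ho) (even_iff_two_dvd.2 this)⟩)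
  obtain ⟨v, hv8, hvK⟩ := crt c8K 5 (-2 * u * n)
  have huJ : J(u | K) = δ := by
    rw [← huK]
    exact jacobiSym.mod_left' (Int.modEq_iff_dvd.2 (by rw [← dvd_neg]; simpa using huK'))
  have hucop : IsCoprime u (K : ℤ) := by
    rw [Int.isCoprime_iff_gcd_eq_one]
    have : NeZero K := ⟨hK0⟩
    by_contra hne
    have := jacobiSym.eq_zero_iff_not_coprime.2 hne
    rw [huJ] at this
    rcases hδ with h | ⟨h, -⟩ <;> omega
  have hvcop : IsCoprime v (K : ℤ) := by
    rw [Int.isCoprime_iff_gcd_eq_one]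
    by_contra hne
    obtain ⟨l, hl, hlg⟩ := Nat.exists_prime_and_dvd hne
    have hlv : (l : ℤ) ∣ v := (Int.natCast_dvd_natCast.2 hlg).trans (Int.gcd_dvd_left ..)
    have hlK : (l : ℤ) ∣ K := (Int.natCast_dvd_natCast.2 hlg).trans (Int.gcd_dvd_right ..)
    have hlK' : l ∣ K := Int.natCast_dvd_natCast.1 hlK
    have F : Fact l.Prime := ⟨hl⟩
    have hmem : l ∈ K.primeFactors := Nat.mem_primeFactors.2 ⟨hl, hlK', hK0⟩
    have h1 := hn l hmem
    have h2 : (l : ℤ) ∣ -2 * u * n := by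
      have := (hlK.trans hvK)
      have := dvd_sub hlv this
      simpa using this
    have Il : Prime (l : ℤ) := Nat.prime_iff_prime_int.1 hl
    rcases Il.dvd_mul.1 h2 with h | h
    · rcases Il.dvd_mul.1 h with h | h
      · have h' : (l : ℤ) ∣ ((2 : ℕ) : ℤ) := by
          have := (dvd_neg (a := (l : ℤ))).2 h
          simpa using this
        have h'' : l = 2 := (Nat.prime_dvd_prime_iff_eq hl Nat.prime_two).1
          (Int.natCast_dvd_natCast.1 h')
        subst h''
        exact (Nat.not_even_iff_odd.2 ho) (even_iff_two_dvd.2 hlK')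
      · have := hucop.isUnit_of_dvd' h hlK
        exact Il.not_isUnit this
    · have h0 : legendreSym l n = 0 := by
        rw [legendreSym.eq_zero_iff, ZMod.intCast_zmod_eq_zero_iff_dvd]
        exact h
      omega
  have hu2 : IsCoprime u (8 : ℤ) := by
    obtain ⟨c, hc⟩ := hu8
    exact ⟨5, -(3 + 5 * c), by linear_combination 5 * hc⟩
  have hv2 : IsCoprime v (8 : ℤ) := by
    obtain ⟨c, hc⟩ := hv8
    exact ⟨5, -(3 + 5 * c), by linear_combination 5 * hc⟩
  obtain ⟨p, q, l, hp, hq, hl, hNp, hNq, hpq, hpu, hqv, hlpq⟩ := an 1 (8 * k) u v (8 * K)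
    isCoprime_one_left one_ne_zero (by omega) (by omega) ⟨4 * K, by ring⟩
    (by push_cast; exact hu2.mul_right hucop) (by push_cast; exact hv2.mul_right hvcop)
    (by
      push_cast
      have : 1 * u + 8 * k * v = u + (8 * K) * (σ * v) := by rw [hkK]; ring
      rw [this]
      exact IsCoprime.add_mul_left_left (hu2.mul_right hucop) _) (Or.inl one_pos)
    (max N k.natAbs)
  have Fp : Fact p.Prime := ⟨hp⟩
  have dpu : ((8 * K : ℕ) : ℤ) ∣ p - u := by
    have := Int.modEq_iff_dvd.1 hpu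
    rw [← dvd_neg]; simpa using this
  have dqv : ((8 * K : ℕ) : ℤ) ∣ q - v := by
    have := Int.modEq_iff_dvd.1 hqv
    rw [← dvd_neg]; simpa using this
  have d8 : (8 : ℤ) ∣ ((8 * K : ℕ) : ℤ) := ⟨K, by push_cast; ring⟩
  have dK : (K : ℤ) ∣ ((8 * K : ℕ) : ℤ) := ⟨8, by push_cast; ring⟩
  have m1 : p % 8 = 5 := by
    have h1 := d8.trans dpu
    have h2 := dvd_add h1 hu8
    omega
  have m3 : q % 8 = 5 := by
    have h1 := d8.trans dqv
    have h2 := dvd_add h1 hv8
    omega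
  have p2 : p ≠ 2 := by omega
  have hJp : J((p : ℤ) | K) = δ := by
    rw [← huJ]
    exact jacobiSym.mod_left' (Int.modEq_iff_dvd.2 (by
      rw [← dvd_neg]; simpa using dK.trans dpu))
  have hKp : legendreSym p (K : ℤ) = δ := by
    rw [jacobiSym.legendreSym.to_jacobiSym, ← hJp]
    exact jacobiSym.quadratic_reciprocity_one_mod_four' ho (by omega)
  have h2p : legendreSym p 2 = -1 := by
    rw [legendreSym.at_two p2, ZMod.χ₈_nat_eq_if_mod_eight, if_neg (by omega), if_neg (by omega)]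
  have hmp : legendreSym p (-1) = 1 := by
    rw [legendreSym.at_neg_one p2, ZMod.χ₄_nat_one_mod_four (by omega)]
  have hkp : legendreSym p k = -1 := by
    rw [hkK, legendreSym.mul, hKp]
    rcases hδσ with ⟨h | h, rfl⟩ | ⟨h | h, rfl⟩
    · rw [h, legendreSym.at_one]; norm_num
    · rw [h, hmp]; norm_num
    · rw [h, h2p]; norm_num
    · rw [h, show (-2 : ℤ) = -1 * 2 by norm_num, legendreSym.mul, hmp, h2p]; norm_num
  refine ⟨p, l, q, ⟨hk, hp, hl, hq, m1, m3, by rw [hlpq]; ring, hpq,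
    lt_of_le_of_lt (le_max_right _ _) hNp, lt_of_le_of_lt (le_max_right _ _) hNq, ?_, ?_⟩,
    lt_of_le_of_lt (le_max_left _ _) hNp⟩
  · intro t Ft ht2 htk
    have It : Prime (t : ℤ) := Nat.prime_iff_prime_int.1 Ft.out
    have tn2 : ¬ (t : ℤ) ∣ 2 := by
      intro h
      have h' : (t : ℤ) ∣ ((2 : ℕ) : ℤ) := by simpa using h
      exact ht2 ((Nat.prime_dvd_prime_iff_eq Ft.out Nat.prime_two).1
          (Int.natCast_dvd_natCast.1 h'))
    have htK : (t : ℤ) ∣ K := by
      rw [hkK] at htk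
      rcases It.dvd_mul.1 htk with h | h
      · exfalso
        rcases hσ with h' | h' | h' | h' <;> rw [h'] at h
        · exact It.not_isUnit (isUnit_of_dvd_one h)
        · exact It.not_isUnit (isUnit_of_dvd_one ((dvd_neg).1 h))
        · exact tn2 h
        · exact tn2 ((dvd_neg).1 h)
      · exact h
    have htK' : t ∣ K := Int.natCast_dvd_natCast.1 htK
    have hmem : t ∈ K.primeFactors := Nat.mem_primeFactors.2 ⟨Ft.out, htK', hK0⟩
    have hnt := hn t hmem
    have hut : ¬ (t : ℤ) ∣ u := fun h => It.not_isUnit (hucop.isUnit_of_dvd' h htK)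
    have e1 : legendreSym t (-2 * p * q) = legendreSym t ((2 * u) * (2 * u) * n) := by
      refine leg_congr t ?_
      have a1 : (t : ℤ) ∣ p - u := htK.trans (dK.trans dpu)
      have a2 : (t : ℤ) ∣ q - v := htK.trans (dK.trans dqv)
      have a3 : (t : ℤ) ∣ v - (-2 * u * n) := htK.trans hvK
      have : (2 * u) * (2 * u) * n - -2 * (p : ℤ) * q =
          2 * q * (p - u) + 2 * u * (q - v) + 2 * u * (v - (-2 * u * n)) := by ring
      rw [this]
      exact dvd_add (dvd_add (a1.mul_left _) (a2.mul_left _)) (a3.mul_left _)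
    rw [e1, legendreSym.mul, legendreSym.mul, hnt]
    have h2u : ((2 * u : ℤ) : ZMod t) ≠ 0 := by
      rw [Ne, ZMod.intCast_zmod_eq_zero_iff_dvd]
      exact fun h => (It.dvd_mul.1 h).elim tn2 hut
    have := legendreSym.sq_one t h2u
    rw [sq] at this
    rw [this]; norm_num
  · intro _
    exact hkp

end Pool.Agent.NJ.H46X
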