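import Pool.Agent.Helper91_SP.Deg
import Pool.Agent.Helper71_SP.Assemble

/-!
# Primes `x`, `y`, `a x + b y` in prescribed residue classes
-/

set_option autoImplicit false

namespace Pool.Agent.NJ

open Real Filter Topology
open Pool.Agent.Helper91_SP Pool.Agent.Common_Sieve
open Pool.Agent.Helper71_SP (Ew TB)

/-- primes of a window in a progression -/
noncomputable def PA (m v k : ℕ) (y0 y1 : ℝ) : Finset ℕ :=
  (PW k y0 y1).filter (fun p => p % m = v % m)

lemma density_odd (w : ℕ) (D : Finset ℕ) (hD : ∀ p ∈ D, p.Prime ∧ p ≤ w ∧ p ≠ 2) :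
    (1 : ℝ) / 2 ≤ ∏ p ∈ D, ((p : ℝ) * ((p : ℝ) - 2) / ((p : ℝ) - 1) ^ 2) := by
  rcases Nat.lt_or_ge w 2 with hw | hw
  · have : D = ∅ := by
      rw [Finset.eq_empty_iff_forall_notMem]
      intro p hp
      have := (hD p hp).1.two_le
      have := (hD p hp).2.1
      omega
    rw [this]; norm_num
  · have h1 := prod_ge w hw
    have hw' : (2 : ℝ) ≤ w := by exact_mod_cast hw
    have h2 : (1 : ℝ) ≤ (w : ℝ) / (w - 1) := by
      rw [le_div_iff₀ (by linarith)]; linarith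
    set F := (Finset.range (w + 1)).filter Nat.Prime with hF
    have h2F : 2 ∈ F := Finset.mem_filter.2 ⟨Finset.mem_range.2 (by omega), Nat.prime_two⟩
    rw [← Finset.mul_prod_erase F _ h2F] at h1
    have h3 : ((2 : ℕ) : ℝ) * (if (2 : ℕ) = 2 then (1 : ℝ) else ((2 : ℕ) : ℝ) - 2) /
        (((2 : ℕ) : ℝ) - 1) ^ 2 = 2 := by norm_num
    rw [h3] at h1
    have h4 : ∏ p ∈ F.erase 2, ((p : ℝ) * (if p = 2 then 1 else (p : ℝ) - 2) / ((p : ℝ) - 1) ^ 2)
        = ∏ p ∈ F.erase 2, ((p : ℝ) * ((p : ℝ) - 2) / ((p : ℝ) - 1) ^ 2) := by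
      apply Finset.prod_congr rfl
      intro p hp
      rw [if_neg (Finset.mem_erase.1 hp).1]
    rw [h4] at h1
    have hsub : D ⊆ F.erase 2 := by
      intro p hp
      obtain ⟨h5, h6, h7⟩ := hD p hp
      rw [Finset.mem_erase, hF, Finset.mem_filter, Finset.mem_range]
      exact ⟨h7, by omega, h5⟩
    have hpos : ∀ p ∈ F.erase 2, 0 ≤ ((p : ℝ) * ((p : ℝ) - 2) / ((p : ℝ) - 1) ^ 2) ∧
        ((p : ℝ) * ((p : ℝ) - 2) / ((p : ℝ) - 1) ^ 2) ≤ 1 := by
      intro p hp
      have h5 := (Finset.mem_filter.1 (Finset.mem_erase.1 hp).2).2.two_le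
      have h6 : (2 : ℝ) ≤ p := by exact_mod_cast h5
      constructor
      · apply div_nonneg _ (by positivity)
        apply mul_nonneg (by positivity) (by linarith)
      · rw [div_le_one (by nlinarith)]
        nlinarith
    rw [← Finset.prod_sdiff hsub] at h1
    have h5 : ∏ p ∈ F.erase 2 \ D, ((p : ℝ) * ((p : ℝ) - 2) / ((p : ℝ) - 1) ^ 2) ≤ 1 :=
      Finset.prod_le_one (fun p hp => (hpos p (Finset.mem_sdiff.1 hp).1).1)
        (fun p hp => (hpos p (Finset.mem_sdiff.1 hp).1).2)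
    have h6 : 0 ≤ ∏ p ∈ D, ((p : ℝ) * ((p : ℝ) - 2) / ((p : ℝ) - 1) ^ 2) :=
      Finset.prod_nonneg (fun p hp => (hpos p (hsub hp)).1)
    nlinarith [mul_le_mul_of_nonneg_right h5 h6]

/-- the main term in progressions -/
theorem mainTermAP (a b : ℤ) (hab : IsCoprime a b) (hodd : Odd (a + b)) (m u v : ℕ)
    (hm0 : 0 < m) (h2m : 2 ∣ m) (hv : Nat.Coprime v m)
    (huv : IsCoprime (a * (u : ℤ) + b * (v : ℤ)) (m : ℤ))
    (x0 x1 y0 y1 : ℝ) (hx0 : 0 < x0) (hy0 : 0 < y0) (hy01 : y0 < y1)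
    (hpos : ∀ x ∈ Set.Icc x0 x1, ∀ y ∈ Set.Icc y0 y1, 0 < (a : ℝ) * x + b * y)
    (w : ℕ) (_hmw : m ≤ w) :
    ∃ K : ℕ, ∀ k : ℕ, K ≤ k → ∀ x : ℕ, x.Prime → x % m = u % m → x0 * k < x → (x : ℝ) ≤ x1 * k →
    (y1 - y0) / (8 * (Nat.totient m : ℝ)) * k / Real.log k ≤
      ((primorial w : ℝ) / (Nat.totient (primorial w))) *
        (((PA m v k y0 y1).filter (fun p : ℕ =>
          Nat.Coprime (a * (x : ℤ) + b * (p : ℤ)).toNat (primorial w))).card : ℝ) := by
  classical
  obtain ⟨D, hD⟩ : ∃ D, D = (Finset.range (w + 1)).filter (fun p => p.Prime ∧ ¬ p ∣ m) := ⟨_, rfl⟩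
  have hDp : ∀ p ∈ D, p.Prime := fun p hp => (Finset.mem_filter.1 (hD ▸ hp)).2.1
  have hDm : ∀ p ∈ D, ¬ p ∣ m := fun p hp => (Finset.mem_filter.1 (hD ▸ hp)).2.2
  have hDw : ∀ p ∈ D, p ≤ w := fun p hp => by
    have := Finset.mem_range.1 (Finset.mem_filter.1 (hD ▸ hp)).1
    omega
  have hD2 : ∀ p ∈ D, p ≠ 2 := fun p hp h => hDm p hp (h ▸ h2m)
  obtain ⟨W1, hW1⟩ : ∃ W1, W1 = ∏ p ∈ D, p := ⟨_, rfl⟩
  have hW1pos : 0 < W1 := by
    rw [hW1]; exact Finset.prod_pos fun p hp => (hDp p hp).pos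
  have hcop : Nat.Coprime m W1 := by
    rw [hW1]
    apply Nat.Coprime.prod_right
    intro p hp
    apply Nat.Coprime.symm
    rw [(hDp p hp).coprime_iff_not_dvd]
    exact hDm p hp
  have hmW : 0 < m * W1 := Nat.mul_pos hm0 hW1pos
  have hK : ∀ s : ℕ, ∃ K : ℕ, Nat.Coprime s W1 → ∀ k : ℕ, K ≤ k → (y1 - y0) / 4 * k / log k ≤
      ((m * W1).totient : ℝ) * (((PW k y0 y1).filter
        (fun p => p % (m * W1) = (Nat.chineseRemainder hcop v s : ℕ) % (m * W1))).card : ℝ) := by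
    intro s
    by_cases hs : Nat.Coprime s W1
    · have h1 : Nat.Coprime (Nat.chineseRemainder hcop v s : ℕ) (m * W1) := by
        obtain ⟨h2, h3⟩ := (Nat.chineseRemainder hcop v s).2
        apply Nat.Coprime.mul_right
        · rw [Nat.coprime_iff_gcd_eq_one, h2.gcd_eq]; exact hv
        · rw [Nat.coprime_iff_gcd_eq_one, h3.gcd_eq]; exact hs
      obtain ⟨K, hK⟩ := ap_lower (m * W1) hmW _ h1 y0 y1 hy0 hy01
      exact ⟨K, fun _ => hK⟩
    · exact ⟨0, fun h => absurd h hs⟩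
  choose K hK using hK
  refine ⟨(Finset.range W1).sup K + ⌈((w : ℝ) + 1) / x0⌉₊ + 3, fun k hk x hxp hxu hx1 hx2 => ?_⟩
  have hk3' : (3 : ℝ) ≤ k := by
    have : 3 ≤ k := by omega
    exact_mod_cast this
  have hk0 : (0 : ℝ) < k := by linarith
  have hL : 0 < log k := log_pos (by linarith)
  have hkw : (w : ℝ) + 1 ≤ x0 * k := by
    have h1 : ⌈((w : ℝ) + 1) / x0⌉₊ ≤ k := by omega
    have h2 : ((w : ℝ) + 1) / x0 ≤ k := (Nat.le_ceil _).trans (Nat.cast_le.2 h1)
    rw [div_le_iff₀ hx0] at h2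
    linarith
  have hwx : w < x := by
    have : (w : ℝ) < x := by linarith
    exact_mod_cast this
  have hxndvd : ∀ p : ℕ, p.Prime → p ≤ w → ¬ (p : ℤ) ∣ (x : ℤ) := by
    intro p hp hpw h
    have h1 := Int.natCast_dvd_natCast.1 h
    have := (Nat.prime_dvd_prime_iff_eq hp hxp).1 h1
    omega
  set R := (Finset.range W1).filter
        (fun r : ℕ => ∀ p ∈ D, PP a b x p (r : ℤ)) with hR
  have hRcard : R.card = ∏ p ∈ D, cnt (PP a b x) p := by
    rw [hR, hW1]
    exact card_range_prod (PP a b x) (PP_periodic a b x) D hDp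
  set G := (PA m v k y0 y1).filter (fun p : ℕ =>
          Nat.Coprime (a * (x : ℤ) + b * (p : ℤ)).toNat (primorial w)) with hG
  set E := (y1 - y0) / 4 * k / log k with hE
  have hφm : (0 : ℝ) < m.totient := by exact_mod_cast Nat.totient_pos.2 hm0
  have hφ1 : (0 : ℝ) < W1.totient := by exact_mod_cast Nat.totient_pos.2 hW1pos
  have hW1r : (0 : ℝ) < W1 := by exact_mod_cast hW1pos
  have hE0 : 0 ≤ E := div_nonneg (mul_nonneg (by linarith) hk0.le) hL.le
  -- each residue class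
  have h1 : ∀ r ∈ R, E ≤ ((m * W1).totient : ℝ) *
      (((PW k y0 y1).filter (fun p => p % (m * W1) =
        (Nat.chineseRemainder hcop v r : ℕ) % (m * W1))).card : ℝ) := by
    intro r hr
    rw [hR, Finset.mem_filter, Finset.mem_range] at hr
    have hco : Nat.Coprime r W1 := by
      rw [hW1]
      apply Nat.Coprime.prod_right
      intro p hp
      apply Nat.Coprime.symm
      rw [(hDp p hp).coprime_iff_not_dvd]
      intro h
      exact (hr.2 p hp).1 (Int.natCast_dvd_natCast.2 h)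
    exact hK r hco k (by
      have : K r ≤ (Finset.range W1).sup K := Finset.le_sup (Finset.mem_range.2 hr.1)
      omega)
  -- members are good
  have hgood : ∀ r ∈ R, ∀ p ∈ (PW k y0 y1).filter (fun p => p % (m * W1) =
        (Nat.chineseRemainder hcop v r : ℕ) % (m * W1)), p ∈ G ∧ p % W1 = r := by
    intro r hr p hp
    rw [hR, Finset.mem_filter, Finset.mem_range] at hr
    obtain ⟨hp1, hp2⟩ := Finset.mem_filter.1 hp
    obtain ⟨h2, h3⟩ := (Nat.chineseRemainder hcop v r).2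
    have h4 : p ≡ (Nat.chineseRemainder hcop v r : ℕ) [MOD m * W1] := hp2
    have h5 : p ≡ v [MOD m] := (h4.of_mul_right W1).trans h2
    have h6 : p ≡ r [MOD W1] := (h4.of_mul_left m).trans h3
    have hp3 := Finset.mem_filter.1 hp1
    have hval := pos_of_window hpos (k := k) (x := x) (p := p) (by omega) ⟨hx1, hx2⟩
      ⟨hp3.2.2.1, hp3.2.2.2⟩
    refine ⟨?_, ?_⟩
    · rw [hG, Finset.mem_filter]
      refine ⟨Finset.mem_filter.2 ⟨hp1, h5⟩, ?_⟩
      have hWD : primorial w = ∏ p ∈ (Finset.range (w + 1)).filter Nat.Prime, p := rfl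
      rw [hWD]
      apply Nat.Coprime.prod_right
      intro l hl
      obtain ⟨hl1, hl2⟩ := Finset.mem_filter.1 hl
      apply Nat.Coprime.symm
      rw [hl2.coprime_iff_not_dvd]
      intro h
      have h7 : (l : ℤ) ∣ a * (x : ℤ) + b * (p : ℤ) := by
        have := Int.natCast_dvd_natCast.2 h
        rwa [Int.toNat_of_nonneg hval.le] at this
      by_cases hlm : l ∣ m
      · -- prime divisors of the modulus
        have h8 : (x : ℤ) ≡ u [ZMOD l] :=
          (Int.natCast_modEq_iff.2 (show x ≡ u [MOD m] from hxu)).of_dvd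
            (Int.natCast_dvd_natCast.2 hlm)
        have h9 : (p : ℤ) ≡ v [ZMOD l] :=
          (Int.natCast_modEq_iff.2 h5).of_dvd (Int.natCast_dvd_natCast.2 hlm)
        have h10 : a * (x : ℤ) + b * (p : ℤ) ≡ a * (u : ℤ) + b * (v : ℤ) [ZMOD l] :=
          (h8.mul_left a).add (h9.mul_left b)
        have h11 : (l : ℤ) ∣ a * (u : ℤ) + b * (v : ℤ) :=
          (Int.modEq_zero_iff_dvd.1 (h10.symm.trans (Int.modEq_zero_iff_dvd.2 h7)))
        have h12 : (l : ℤ) ∣ 1 := by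
          obtain ⟨s, t, hst⟩ := huv
          rw [← hst]
          exact dvd_add (h11.mul_left s) ((Int.natCast_dvd_natCast.2 hlm).mul_left t)
        have h13 := Int.le_of_dvd one_pos h12
        have := hl2.two_le
        omega
      · have hlD : l ∈ D := by
          rw [hD, Finset.mem_filter]
          exact ⟨hl1, hl2, hlm⟩
        apply (hr.2 l hlD).2
        have h8 : (p : ℤ) ≡ r [ZMOD l] := by
          refine (Int.natCast_modEq_iff.2 h6).of_dvd ?_
          rw [hW1]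
          exact Int.natCast_dvd_natCast.2 (Finset.dvd_prod_of_mem _ hlD)
        have h10 : a * (x : ℤ) + b * (p : ℤ) ≡ a * (x : ℤ) + b * (r : ℤ) [ZMOD l] :=
          (h8.mul_left b).add_left _
        exact (Int.modEq_zero_iff_dvd.1 (h10.symm.trans (Int.modEq_zero_iff_dvd.2 h7)))
    · have h7 : p % W1 = r % W1 := h6
      rw [h7, Nat.mod_eq_of_lt hr.1]
  -- summation
  have h2 : ∑ r ∈ R, (((PW k y0 y1).filter (fun p => p % (m * W1) =
        (Nat.chineseRemainder hcop v r : ℕ) % (m * W1))).card : ℝ) ≤ G.card := by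
    have h3 : ∑ r ∈ R, (((PW k y0 y1).filter (fun p => p % (m * W1) =
        (Nat.chineseRemainder hcop v r : ℕ) % (m * W1)))).card
        = (R.biUnion (fun r => (PW k y0 y1).filter (fun p => p % (m * W1) =
        (Nat.chineseRemainder hcop v r : ℕ) % (m * W1)))).card := by
      rw [Finset.card_biUnion]
      intro r hr r' hr' hne
      rw [Function.onFun, Finset.disjoint_left]
      intro p hp hp'
      exact hne ((hgood r hr p hp).2.symm.trans (hgood r' hr' p hp').2)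
    have h4 : (R.biUnion (fun r => (PW k y0 y1).filter (fun p => p % (m * W1) =
        (Nat.chineseRemainder hcop v r : ℕ) % (m * W1)))) ⊆ G := by
      intro p hp
      obtain ⟨r, hr, hp'⟩ := Finset.mem_biUnion.1 hp
      exact (hgood r hr p hp').1
    have h5 := Finset.card_le_card h4
    rw [← h3] at h5
    exact_mod_cast h5
  have h3 : (R.card : ℝ) * E ≤ ((m * W1).totient : ℝ) * G.card := by
    calc (R.card : ℝ) * E = ∑ r ∈ R, E := by simp
      _ ≤ ∑ r ∈ R, ((m * W1).totient : ℝ) * (((PW k y0 y1).filter (fun p => p % (m * W1) =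
        (Nat.chineseRemainder hcop v r : ℕ) % (m * W1))).card : ℝ) :=
        Finset.sum_le_sum h1
      _ = ((m * W1).totient : ℝ) * ∑ r ∈ R, (((PW k y0 y1).filter (fun p => p % (m * W1) =
        (Nat.chineseRemainder hcop v r : ℕ) % (m * W1))).card : ℝ) := by
        rw [Finset.mul_sum]
      _ ≤ _ := mul_le_mul_of_nonneg_left h2 (Nat.cast_nonneg _)
  rw [Nat.totient_mul hcop] at h3
  push_cast at h3
  -- density
  have hdens : (W1.totient : ℝ) ^ 2 / 2 ≤ (W1 : ℝ) * R.card := by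
    rw [hRcard, hW1, totient_prod D hDp]
    push_cast
    have h4 : (1 : ℝ) / 2 ≤ ∏ p ∈ D, ((p : ℝ) * (cnt (PP a b x) p : ℝ) / ((p - 1 : ℕ) : ℝ) ^ 2) := by
      refine (density_odd w D (fun p hp => ⟨hDp p hp, hDw p hp, hD2 p hp⟩)).trans ?_
      apply Finset.prod_le_prod
      · intro p hp
        have hp2 := (hDp p hp).two_le
        have hp2' : (2 : ℝ) ≤ p := by exact_mod_cast hp2
        apply div_nonneg _ (by positivity)
        apply mul_nonneg (by positivity)
        linarith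
      · intro p hp
        have hp' := hDp p hp
        have h5 : ((p - 1 : ℕ) : ℝ) = (p : ℝ) - 1 := by
          rw [Nat.cast_sub hp'.one_lt.le]; simp
        rw [h5]
        apply div_le_div_of_nonneg_right _ (by positivity)
        apply mul_le_mul_of_nonneg_left _ (by positivity)
        have h6 := cnt_PP_ge a b x hab hodd p hp' (hxndvd p hp' (hDw p hp))
        rw [if_neg (hD2 p hp)] at h6
        exact h6
    have h5 : ∀ p ∈ D, (0 : ℝ) < ((p - 1 : ℕ) : ℝ) := by
      intro p hp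
      have := (hDp p hp).two_le
      have : 0 < p - 1 := by omega
      exact_mod_cast this
    rw [Finset.prod_div_distrib, Finset.prod_mul_distrib, Finset.prod_pow,
      le_div_iff₀ (pow_pos (Finset.prod_pos h5) 2)] at h4
    linarith
  -- comparison of the Euler factors
  have hfac : (W1 : ℝ) / W1.totient ≤ (primorial w : ℝ) / (Nat.totient (primorial w)) := by
    have hF : ∀ p ∈ (Finset.range (w + 1)).filter Nat.Prime, p.Prime :=
      fun p hp => (Finset.mem_filter.1 hp).2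
    have hsub : D ⊆ (Finset.range (w + 1)).filter Nat.Prime := by
      rw [hD]
      intro p hp
      obtain ⟨h4, h5, -⟩ := Finset.mem_filter.1 hp
      exact Finset.mem_filter.2 ⟨h4, h5⟩
    have hWD : primorial w = ∏ p ∈ (Finset.range (w + 1)).filter Nat.Prime, p := rfl
    rw [hWD, totient_prod _ hF, hW1, totient_prod D hDp]
    push_cast
    rw [← Finset.prod_div_distrib, ← Finset.prod_div_distrib]
    rw [← Finset.prod_sdiff hsub]
    have h4 : (1 : ℝ) ≤ ∏ p ∈ (Finset.range (w + 1)).filter Nat.Prime \ D,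
        ((p : ℝ) / ((p - 1 : ℕ) : ℝ)) := by
      calc (1 : ℝ) = ∏ p ∈ (Finset.range (w + 1)).filter Nat.Prime \ D, (1 : ℝ) := by simp
        _ ≤ _ := by
          apply Finset.prod_le_prod (fun _ _ => zero_le_one)
          intro p hp
          have hp' := hF p (Finset.mem_sdiff.1 hp).1
          have h5 : (0 : ℝ) < ((p - 1 : ℕ) : ℝ) := by
            have := hp'.two_le
            have : 0 < p - 1 := by omega
            exact_mod_cast this
          rw [le_div_iff₀ h5, one_mul]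
          exact_mod_cast Nat.sub_le _ _
    have h5 : (0 : ℝ) ≤ ∏ p ∈ D, ((p : ℝ) / ((p - 1 : ℕ) : ℝ)) :=
      Finset.prod_nonneg fun p _ => by positivity
    exact le_mul_of_one_le_left h5 h4
  -- conclusion
  have h4 : (W1.totient : ℝ) ^ 2 / 2 * E ≤ (W1 : ℝ) * ((m.totient : ℝ) * W1.totient * G.card) := by
    calc (W1.totient : ℝ) ^ 2 / 2 * E ≤ ((W1 : ℝ) * R.card) * E :=
          mul_le_mul_of_nonneg_right hdens hE0
      _ = (W1 : ℝ) * ((R.card : ℝ) * E) := by ring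
      _ ≤ _ := mul_le_mul_of_nonneg_left h3 hW1r.le
  have h5 : (y1 - y0) / (8 * (Nat.totient m : ℝ)) * k / Real.log k ≤
      (W1 : ℝ) / W1.totient * G.card := by
    have e1 : (y1 - y0) / (8 * (Nat.totient m : ℝ)) * k / Real.log k
        = E / (2 * (m.totient : ℝ)) := by
      rw [hE]; field_simp; ring
    rw [e1, div_mul_eq_mul_div, div_le_div_iff₀ (by positivity) hφ1]
    have h6 : (W1.totient : ℝ) * (E * W1.totient) ≤
        (W1.totient : ℝ) * (W1 * G.card * (2 * (m.totient : ℝ))) := by nlinarith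
    exact le_of_mul_le_mul_left h6 hφ1
  exact h5.trans (mul_le_mul_of_nonneg_right hfac (Nat.cast_nonneg _))

/-- For every `K` there are primes `x, y, z > K` with `z = a x + b y` and `x`, `y` in given
residue classes modulo `m`. -/
theorem exists_prime_triple (a b : ℤ) (ha : a ≠ 0) (hb : b ≠ 0) (hab : IsCoprime a b)
    (hodd : Odd (a + b)) (m u v : ℕ) (hm0 : 0 < m) (h2m : 2 ∣ m) (hu : Nat.Coprime u m)
    (hv : Nat.Coprime v m) (huv : IsCoprime (a * (u : ℤ) + b * (v : ℤ)) (m : ℤ))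
    (x0 x1 y0 y1 : ℝ) (hx0 : 0 < x0) (hx01 : x0 < x1) (hy0 : 0 < y0) (hy01 : y0 < y1)
    (hpos : ∀ x ∈ Set.Icc x0 x1, ∀ y ∈ Set.Icc y0 y1, 0 < (a : ℝ) * x + b * y) :
    ∀ K : ℕ, ∃ x y z : ℕ, x.Prime ∧ y.Prime ∧ z.Prime ∧ K < x ∧ K < y ∧ K < z ∧
      x % m = u % m ∧ y % m = v % m ∧ (z : ℤ) = a * x + b * y := by
  classical
  -- a lower bound of the form on the windows
  obtain ⟨δ, hδ, hδb⟩ : ∃ δ : ℝ, 0 < δ ∧ ∀ x ∈ Set.Icc x0 x1, ∀ y ∈ Set.Icc y0 y1,
      δ ≤ (a : ℝ) * x + b * y := by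
    have hc : IsCompact (Set.Icc x0 x1 ×ˢ Set.Icc y0 y1) := isCompact_Icc.prod isCompact_Icc
    have hne : (Set.Icc x0 x1 ×ˢ Set.Icc y0 y1).Nonempty :=
      ⟨(x0, y0), ⟨Set.left_mem_Icc.2 hx01.le, Set.left_mem_Icc.2 hy01.le⟩⟩
    obtain ⟨z, hz, hmin⟩ := hc.exists_isMinOn hne
      (f := fun z : ℝ × ℝ => (a : ℝ) * z.1 + b * z.2) (by fun_prop)
    refine ⟨(a : ℝ) * z.1 + b * z.2, hpos z.1 hz.1 z.2 hz.2, fun x hx y hy => ?_⟩
    exact hmin (show (x, y) ∈ Set.Icc x0 x1 ×ˢ Set.Icc y0 y1 from ⟨hx, hy⟩)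
  intro K
  by_contra hcon
  push Not at hcon
  have hd : 0 < y1 - y0 := by linarith
  have hdx : 0 < x1 - x0 := by linarith
  have hφm : (0 : ℝ) < m.totient := by exact_mod_cast Nat.totient_pos.2 hm0
  obtain ⟨C3, hC31, hC3x, hC3y, hC3⟩ : ∃ C3 : ℕ, 1 ≤ C3 ∧ x1 ≤ C3 ∧ y1 ≤ C3 ∧
      |(a : ℝ)| * x1 + |(b : ℝ)| * y1 ≤ C3 := by
    refine ⟨1 + ⌈x1⌉₊ + ⌈y1⌉₊ + ⌈|(a : ℝ)| * x1 + |(b : ℝ)| * y1⌉₊, by omega, ?_, ?_, ?_⟩
    · exact (Nat.le_ceil _).trans (Nat.cast_le.2 (by omega))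
    · exact (Nat.le_ceil _).trans (Nat.cast_le.2 (by omega))
    · exact (Nat.le_ceil _).trans (Nat.cast_le.2 (by omega))
  have hC30 : (0 : ℝ) < C3 := by exact_mod_cast hC31
  set c1 : ℝ := (y1 - y0) / (8 * (m.totient : ℝ)) with hc1
  have hc10 : 0 < c1 := by positivity
  set c2 : ℝ := (x1 - x0) / (4 * (m.totient : ℝ)) with hc2
  have hc20 : 0 < c2 := by positivity
  set ε : ℝ := c1 * c2 / (4 * (C3 : ℝ) ^ 2) with hεdef
  have hε : 0 < ε := by positivity
  obtain ⟨w0, hw0⟩ := Pool.Agent.Helper71_SP.tb a b ha hb ε hε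
  obtain ⟨w, hw, hmw⟩ : ∃ w, w0 ≤ w ∧ m ≤ w := ⟨max w0 m, le_max_left _ _, le_max_right _ _⟩
  obtain ⟨N0, hN0⟩ := hw0 w hw
  obtain ⟨K1, hK1⟩ := mainTermAP a b hab hodd m u v hm0 h2m hv huv x0 x1 y0 y1 hx0 hy0 hy01
    hpos w hmw
  obtain ⟨C, hC⟩ := Chebyshev.psi_sub_theta_le_mul_sqrt
  obtain ⟨K2, hK2⟩ := sqrt_log_small (max C 0 * √C3) (c1 / 2)
    (mul_nonneg (le_max_right _ _) (sqrt_nonneg _)) (by linarith)
  obtain ⟨K3, hK3⟩ := ap_lower m hm0 u hu x0 x1 hx0 hx01
  obtain ⟨k, hkdef⟩ : ∃ k, k = N0 + K1 + K2 + K3 + C3 + 3 + ⌈((K : ℝ) + 1) / x0⌉₊ +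
    ⌈((K : ℝ) + 1) / y0⌉₊ + ⌈((K : ℝ) + 1) / δ⌉₊ := ⟨_, rfl⟩
  have hk3' : (3 : ℝ) ≤ k := by
    have : 3 ≤ k := by omega
    exact_mod_cast this
  have hk0 : (0 : ℝ) < k := by linarith
  have hL : 0 < log k := log_pos (by linarith)
  have hkbig : ∀ s : ℝ, 0 < s → ⌈((K : ℝ) + 1) / s⌉₊ ≤ k → (K : ℝ) + 1 ≤ s * k := by
    intro s hs h
    have h2 : ((K : ℝ) + 1) / s ≤ k := (Nat.le_ceil _).trans (Nat.cast_le.2 h)
    rw [div_le_iff₀ hs] at h2
    linarith
  have hkx := hkbig x0 hx0 (by omega)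
  have hky := hkbig y0 hy0 (by omega)
  have hkδ := hkbig δ hδ (by omega)
  set N := C3 * k with hN
  have hNk : k ≤ N := by rw [hN]; exact Nat.le_mul_of_pos_left k hC31
  have hNk' : (k : ℝ) ≤ N := by exact_mod_cast hNk
  have hlogN1 : log k ≤ log N := log_le_log hk0 hNk'
  set X := PA m u k x0 x1 with hX
  set Y := PA m v k y0 y1 with hY
  have hPWN : ∀ u0 u1 : ℝ, u1 ≤ C3 → PW k u0 u1 ⊆ (Finset.Icc 1 N).filter Nat.Prime := by
    intro u0 u1 hu p hp
    obtain ⟨hp1, hp2, hp3⟩ := mem_PW' hp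
    rw [Finset.mem_filter, Finset.mem_Icc]
    refine ⟨⟨hp1.pos, ?_⟩, hp1⟩
    have : (p : ℝ) ≤ C3 * k := hp3.trans (mul_le_mul_of_nonneg_right hu hk0.le)
    rw [hN]
    exact_mod_cast this
  have hTB' := hN0 N (by omega) X Y ((Finset.filter_subset _ _).trans (hPWN _ _ hC3x))
    ((Finset.filter_subset _ _).trans (hPWN _ _ hC3y))
  have hXcard : c2 * k / log k ≤ X.card := by
    have h1 := hK3 k (by omega)
    have h2 : (X.card : ℝ) = (((PW k x0 x1).filter (fun p => p % m = u % m)).card : ℝ) := rfl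
    rw [h2, hc2]
    have h3 : (x1 - x0) / (4 * (m.totient : ℝ)) * k / log k
        = ((x1 - x0) / 4 * k / log k) / m.totient := by field_simp
    rw [h3, div_le_iff₀ hφm]
    linarith [mul_comm (m.totient : ℝ) (((PW k x0 x1).filter (fun p => p % m = u % m)).card : ℝ)]
  -- inner sums
  have hinner : ∀ x ∈ X, ∑ y ∈ Y,
        (if 1 ≤ a * (x : ℤ) + b * (y : ℤ) ∧ a * (x : ℤ) + b * (y : ℤ) ≤ (N : ℤ)
          then Ew w (a * (x : ℤ) + b * (y : ℤ)).toNat else 0) ≤ -(c1 / 2 * k / log k) := by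
    intro x hx
    rw [hX] at hx
    obtain ⟨hxPW, hxm⟩ := Finset.mem_filter.1 hx
    obtain ⟨hxp, hxw⟩ := mem_PW' hxPW
    have hv : ∀ y ∈ Y, 1 ≤ a * (x : ℤ) + b * (y : ℤ) ∧ a * (x : ℤ) + b * (y : ℤ) ≤ (N : ℤ) := by
      intro y hy
      obtain ⟨hyp, hyw⟩ := mem_PW' (Finset.mem_filter.1 hy).1
      refine ⟨pos_of_window hpos (by omega) hxw hyw, ?_⟩
      have h1 : (a : ℝ) * x + b * y ≤ N := by
        have h2 : (a : ℝ) * x ≤ |(a : ℝ)| * (x1 * k) :=
          mul_le_mul (le_abs_self _) hxw.2 (Nat.cast_nonneg _) (abs_nonneg _)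
        have h3 : (b : ℝ) * y ≤ |(b : ℝ)| * (y1 * k) :=
          mul_le_mul (le_abs_self _) hyw.2 (Nat.cast_nonneg _) (abs_nonneg _)
        have h4 : (|(a : ℝ)| * x1 + |(b : ℝ)| * y1) * k ≤ C3 * k :=
          mul_le_mul_of_nonneg_right hC3 hk0.le
        rw [hN]; push_cast
        nlinarith
      exact_mod_cast h1
    have h1 : ∑ y ∈ Y, (if 1 ≤ a * (x : ℤ) + b * (y : ℤ) ∧ a * (x : ℤ) + b * (y : ℤ) ≤ (N : ℤ)
          then Ew w (a * (x : ℤ) + b * (y : ℤ)).toNat else 0)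
        = ∑ y ∈ Y, ArithmeticFunction.vonMangoldt (a * (x : ℤ) + b * (y : ℤ)).toNat
          - ((primorial w : ℝ) / (Nat.totient (primorial w))) *
            ((Y.filter (fun y : ℕ => Nat.Coprime (a * (x : ℤ) + b * (y : ℤ)).toNat
              (primorial w))).card : ℝ) := by
      have h2 : ((primorial w : ℝ) / (Nat.totient (primorial w))) *
            ((Y.filter (fun y : ℕ => Nat.Coprime (a * (x : ℤ) + b * (y : ℤ)).toNat
              (primorial w))).card : ℝ)
          = ∑ y ∈ Y, (if Nat.Coprime (a * (x : ℤ) + b * (y : ℤ)).toNat (primorial w)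
            then ((primorial w : ℝ) / (Nat.totient (primorial w))) else 0) := by
        rw [← Finset.sum_filter, Finset.sum_const, nsmul_eq_mul, mul_comm]
      rw [h2, ← Finset.sum_sub_distrib]
      apply Finset.sum_congr rfl
      intro y hy
      rw [if_pos (hv y hy)]
      rfl
    rw [h1]
    have hmain : c1 * k / log k ≤ ((primorial w : ℝ) / (Nat.totient (primorial w))) *
            ((Y.filter (fun y : ℕ => Nat.Coprime (a * (x : ℤ) + b * (y : ℤ)).toNat
              (primorial w))).card : ℝ) := hK1 k (by omega) x hxp hxm hxw.1 hxw.2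
    -- no value is prime
    have hnp : ∀ y ∈ Y, ¬ (a * (x : ℤ) + b * (y : ℤ)).toNat.Prime := by
      intro y hy hpr
      obtain ⟨hyPW, hym⟩ := Finset.mem_filter.1 hy
      obtain ⟨hyp, hyw⟩ := mem_PW' hyPW
      obtain ⟨hv1, -⟩ := hv y hy
      have hKx : K < x := by
        have : (K : ℝ) < x := by linarith [hxw.1]
        exact_mod_cast this
      have hKy : K < y := by
        have : (K : ℝ) < y := by linarith [hyw.1]
        exact_mod_cast this
      have hKz : (K : ℤ) < a * (x : ℤ) + b * (y : ℤ) := by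
        have h2 := hδb (x / k) ⟨by rw [le_div_iff₀ hk0]; exact hxw.1.le, by
          rw [div_le_iff₀ hk0]; exact hxw.2⟩ (y / k) ⟨by rw [le_div_iff₀ hk0]; exact hyw.1.le, by
          rw [div_le_iff₀ hk0]; exact hyw.2⟩
        have h3 : (a : ℝ) * x + b * y = ((a : ℝ) * (x / k) + b * (y / k)) * k := by field_simp
        have h4 : (K : ℝ) < (a : ℝ) * x + b * y := by
          rw [h3]
          have := mul_le_mul_of_nonneg_right h2 hk0.le
          linarith
        exact_mod_cast h4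
      refine hcon x y (a * (x : ℤ) + b * (y : ℤ)).toNat hxp hyp hpr hKx hKy (by omega) hxm hym ?_
      rw [Int.toNat_of_nonneg (by omega)]
    have hΛ2 : ∑ y ∈ Y, ArithmeticFunction.vonMangoldt (a * (x : ℤ) + b * (y : ℤ)).toNat
        ≤ c1 / 2 * k / log k := by
      have h2 : ∑ y ∈ Y, ArithmeticFunction.vonMangoldt (a * (x : ℤ) + b * (y : ℤ)).toNat
          = ∑ n ∈ Y.image
            (fun y : ℕ => (a * (x : ℤ) + b * (y : ℤ)).toNat), ArithmeticFunction.vonMangoldt n := by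
        rw [Finset.sum_image]
        intro y hy y' hy' h
        rw [Finset.mem_coe] at hy hy'
        have h3 := hv y hy
        have h4 := hv y' hy'
        simp only at h
        have h5 : b * ((y : ℤ) - y') = 0 := by
          have : a * (x : ℤ) + b * (y : ℤ) = a * (x : ℤ) + b * (y' : ℤ) := by omega
          linear_combination this
        rcases mul_eq_zero.1 h5 with h6 | h6
        · exact absurd h6 hb
        · omega
      rw [h2]
      calc _ ≤ ∑ n ∈ (Finset.Ioc 0 ⌊(N : ℝ)⌋₊).filter (fun n => ¬ n.Prime),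
            ArithmeticFunction.vonMangoldt n := by
            apply Finset.sum_le_sum_of_subset_of_nonneg
            · intro n hn
              obtain ⟨y, hy, rfl⟩ := Finset.mem_image.1 hn
              obtain ⟨hv1, hv2⟩ := hv y hy
              rw [Nat.floor_natCast, Finset.mem_filter, Finset.mem_Ioc]
              exact ⟨⟨by omega, by omega⟩, hnp y hy⟩
            · intro n _ _
              exact ArithmeticFunction.vonMangoldt_nonneg
        _ = Chebyshev.psi N - Chebyshev.theta N := nonprime_sum _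
        _ ≤ C * √N := hC _
        _ ≤ max C 0 * √N := mul_le_mul_of_nonneg_right (le_max_left _ _) (sqrt_nonneg _)
        _ = max C 0 * √C3 * √k := by
            rw [hN]; push_cast
            rw [sqrt_mul hC30.le, mul_assoc]
        _ ≤ _ := hK2 k (by omega)
    have e1 : c1 * k / log k = 2 * (c1 / 2 * k / log k) := by ring
    rw [e1] at hmain
    linarith
  have hsum : ∑ x ∈ X, ∑ y ∈ Y,
        (if 1 ≤ a * (x : ℤ) + b * (y : ℤ) ∧ a * (x : ℤ) + b * (y : ℤ) ≤ (N : ℤ)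
          then Ew w (a * (x : ℤ) + b * (y : ℤ)).toNat else 0)
      ≤ X.card * (-(c1 / 2 * k / log k)) := by
    rw [← nsmul_eq_mul]
    exact Finset.sum_le_card_nsmul _ _ _ hinner
  have h1 := (abs_le.1 hTB').1
  have h2 : (X.card : ℝ) * (c1 / 2 * k / log k) ≤ ε * ((N : ℝ) / log N) ^ 2 := by linarith
  have h3 : ((N : ℝ) / log N) ^ 2 ≤ ((C3 : ℝ) * k / log k) ^ 2 := by
    apply pow_le_pow_left₀ (by positivity)
    rw [hN]; push_cast
    apply div_le_div_of_nonneg_left (by positivity) hL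
    rw [hN] at hlogN1
    push_cast at hlogN1
    exact hlogN1
  have h4 : (c2 * k / log k) * (c1 / 2 * k / log k) ≤ ε * ((C3 : ℝ) * k / log k) ^ 2 := by
    calc (c2 * k / log k) * (c1 / 2 * k / log k)
        ≤ (X.card : ℝ) * (c1 / 2 * k / log k) :=
          mul_le_mul_of_nonneg_right hXcard (by positivity)
      _ ≤ _ := h2
      _ ≤ _ := mul_le_mul_of_nonneg_left h3 hε.le
  have h5 : ε * ((C3 : ℝ) * k / log k) ^ 2 = c1 * c2 / 4 * (k / log k) ^ 2 := by
    rw [hεdef]; field_simp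
  have h6 : (c2 * k / log k) * (c1 / 2 * k / log k) = c1 * c2 / 2 * (k / log k) ^ 2 := by
    field_simp
  rw [h5, h6] at h4
  have h7 : 0 < c1 * c2 * ((k : ℝ) / log k) ^ 2 := by positivity
  linarith

end Pool.Agent.NJ
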